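import Mathlib

open PowerSeries

namespace Pool.Agent.Results.MP_582e6d_pr.MotherFirst

/-- The three possible pairings: father-mother, father-son, mother-son. -/
inductive Pairing
  | FM
  | FS
  | MS

open Pairing

/-- `W a b c r p q X` is the probability that the father wins the tournament when the father,
the mother and the son still need `r`, `p`, `q` game wins and the next game is the pairing `X`.
It is given by conditioning on the next game: its winner needs one win fewer and next meets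
the player who sat out. -/
noncomputable def W (a b c : ℝ) : ℕ → ℕ → ℕ → Pairing → ℝ
  | 0, _, _, _ => 1
  | _ + 1, 0, _, _ => 0
  | _ + 1, _ + 1, 0, _ => 0
  | r + 1, p + 1, q + 1, FM => a * W a b c r (p + 1) (q + 1) FS + (1 - a) * W a b c (r + 1) p (q + 1) MS
  | r + 1, p + 1, q + 1, FS => b * W a b c r (p + 1) (q + 1) FM + (1 - b) * W a b c (r + 1) (p + 1) q MS
  | r + 1, p + 1, q + 1, MS => c * W a b c (r + 1) p (q + 1) FM + (1 - c) * W a b c (r + 1) (p + 1) q FS
termination_by r p q _ => r + p + q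

/-- State of the tournament: wins so far of father, mother, son, and the next pairing. -/
structure St where
  f : ℕ
  m : ℕ
  s : ℕ
  next : Pairing

/-- One game. The outcome `true` means that the first-named player of the pairing wins.
The winner gains a win and next meets the player who sat out. -/
def step : St → Bool → St
  | ⟨f, m, s, FM⟩, true => ⟨f + 1, m, s, FS⟩
  | ⟨f, m, s, FM⟩, false => ⟨f, m + 1, s, MS⟩
  | ⟨f, m, s, FS⟩, true => ⟨f + 1, m, s, FM⟩
  | ⟨f, m, s, FS⟩, false => ⟨f, m, s + 1, MS⟩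
  | ⟨f, m, s, MS⟩, true => ⟨f, m + 1, s, FM⟩
  | ⟨f, m, s, MS⟩, false => ⟨f, m, s + 1, FS⟩

/-- Probability of an outcome of a game between the given pairing. -/
def gameProb (a b c : ℝ) : Pairing → Bool → ℝ
  | FM, true => a
  | FM, false => 1 - a
  | FS, true => b
  | FS, false => 1 - b
  | MS, true => c
  | MS, false => 1 - c

/-- Probability of a sequence of outcomes (independent games). -/
def weight (a b c : ℝ) : St → List Bool → ℝ
  | _, [] => 1
  | σ, w :: l => gameProb a b c σ.next w * weight a b c (step σ w) l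

/-- Along the given outcomes, the father is the first player to reach `N` wins. -/
def fatherWins (N : ℕ) : St → List Bool → Bool
  | σ, [] => σ.f = N
  | σ, w :: l =>
    if σ.f = N then true else if σ.m = N ∨ σ.s = N then false else fatherWins N (step σ w) l

/-- Probability that the father wins the first-to-`N` tournament started with pairing `X`:
the total probability of the outcome sequences of `3 N` games (more than the tournament can
last; later games are ignored) along which the father is first to `N` wins. -/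
noncomputable def P (N : ℕ) (X : Pairing) (a b c : ℝ) : ℝ :=
  ∑ ω : Fin (3 * N) → Bool,
    if fatherWins N ⟨0, 0, 0, X⟩ (List.ofFn ω) then weight a b c ⟨0, 0, 0, X⟩ (List.ofFn ω) else 0

abbrev A := ℝ⟦X⟧⟦X⟧⟦X⟧

noncomputable def c3 (f : A) (r p q : ℕ) : ℝ := coeff q (coeff p (coeff r f))
noncomputable def mk3 (g : ℕ → ℕ → ℕ → ℝ) : A := mk fun r => mk fun p => mk fun q => g r p q
noncomputable def RR : A := X
noncomputable def PP : A := C X
noncomputable def QQ : A := C (C X)
noncomputable def sc : ℝ →+* A := (C : ℝ⟦X⟧⟦X⟧ →+* A).comp ((C : ℝ⟦X⟧ →+* ℝ⟦X⟧⟦X⟧).comp C)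

lemma c3_mk3 (g : ℕ → ℕ → ℕ → ℝ) (r p q : ℕ) : c3 (mk3 g) r p q = g r p q := by
  simp [c3, mk3, coeff_mk]
lemma ext3 {f g : A} (h : ∀ r p q, c3 f r p q = c3 g r p q) : f = g := by
  ext r p q; exact h r p q
lemma c3_add (f g : A) (r p q : ℕ) : c3 (f + g) r p q = c3 f r p q + c3 g r p q := by
  simp [c3]
lemma c3_sub (f g : A) (r p q : ℕ) : c3 (f - g) r p q = c3 f r p q - c3 g r p q := by
  simp [c3]
lemma c3_sc (x : ℝ) (f : A) (r p q : ℕ) : c3 (sc x * f) r p q = x * c3 f r p q := by
  simp [c3, sc, coeff_C_mul]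
lemma c3_R0 (f : A) (p q : ℕ) : c3 (RR * f) 0 p q = 0 := by
  simp only [c3, RR, coeff_zero_X_mul, map_zero]
lemma c3_R (f : A) (r p q : ℕ) : c3 (RR * f) (r + 1) p q = c3 f r p q := by
  simp only [c3, RR, coeff_succ_X_mul]
lemma c3_P0 (f : A) (r q : ℕ) : c3 (PP * f) r 0 q = 0 := by
  simp only [c3, PP, coeff_C_mul, coeff_zero_X_mul, map_zero]
lemma c3_P (f : A) (r p q : ℕ) : c3 (PP * f) r (p + 1) q = c3 f r p q := by
  simp only [c3, PP, coeff_C_mul, coeff_succ_X_mul]
lemma c3_Q0 (f : A) (r p : ℕ) : c3 (QQ * f) r p 0 = 0 := by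
  simp only [c3, QQ, coeff_C_mul, coeff_zero_X_mul]
lemma c3_Q (f : A) (r p q : ℕ) : c3 (QQ * f) r p (q + 1) = c3 f r p q := by
  simp only [c3, QQ, coeff_C_mul, coeff_succ_X_mul]

noncomputable def T (t : ℝ) (j K : ℕ) : ℝ := ∑ L ∈ Finset.range K, (Nat.multichoose j L : ℝ) * t ^ L
noncomputable def G (t : ℝ) (j p : ℕ) : ℝ := T t j ((p + 1) / 2)

lemma T_zero (t : ℝ) (j : ℕ) : T t j 0 = 0 := by simp [T]
lemma T_succ (t : ℝ) (j K : ℕ) : T t j (K + 1) = T t j K + (Nat.multichoose j K : ℝ) * t ^ K := by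
  simp [T, Finset.sum_range_succ]
lemma T_rec (t : ℝ) (j K : ℕ) : T t (j + 1) (K + 1) = T t j (K + 1) + t * T t (j + 1) K := by
  simp only [T, Finset.sum_range_succ', Nat.multichoose_succ_succ, Nat.multichoose_zero_right]
  rw [Finset.mul_sum, add_right_comm, ← Finset.sum_add_distrib]
  congr 1
  apply Finset.sum_congr rfl
  intro L _
  push_cast
  ring
lemma G0 (t : ℝ) (j : ℕ) : G t j 0 = 0 := by simp [G, T]
lemma G1 (t : ℝ) (j : ℕ) : G t j 1 = 1 := by simp [G, T]
lemma G_rec (t : ℝ) (j p : ℕ) : G t (j + 1) (p + 1 + 1) = G t j (p + 1 + 1) + t * G t (j + 1) p := by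
  have h : (p + 1 + 1 + 1) / 2 = (p + 1) / 2 + 1 := by omega
  simp only [G, h, T_rec]
lemma G_base (t : ℝ) (p : ℕ) : G t 0 (p + 1) = 1 := by
  have h : (p + 1 + 1) / 2 = p / 2 + 1 := by omega
  simp only [G, h, T, Finset.sum_range_succ', Nat.multichoose_zero_succ, Nat.multichoose_zero_right]
  simp
lemma T_nonneg {t : ℝ} (ht : 0 ≤ t) (j K : ℕ) : 0 ≤ T t j K :=
  Finset.sum_nonneg fun _ _ => by positivity

lemma T_cmp {α β : ℝ} (h0 : 0 ≤ α) (h : α ≤ β) (j K : ℕ) :
    α ^ K * T β j K * β ≤ T α j K * β ^ K * α := by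
  simp only [T, Finset.mul_sum, Finset.sum_mul]
  apply Finset.sum_le_sum
  intro L hL
  obtain ⟨d, rfl⟩ : ∃ d, K = L + 1 + d := ⟨K - (L + 1), by have := Finset.mem_range.mp hL; omega⟩
  have h1 : α ^ d ≤ β ^ d := pow_le_pow_left₀ h0 h d
  have hβ : 0 ≤ β := h0.trans h
  have h2 : 0 ≤ (Nat.multichoose j L : ℝ) * α ^ (L + 1) * β ^ (L + 1) := by positivity
  have := mul_le_mul_of_nonneg_left h1 h2
  calc _ = (Nat.multichoose j L : ℝ) * α ^ (L + 1) * β ^ (L + 1) * α ^ d := by ring
    _ ≤ _ := this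
    _ = _ := by ring

lemma T_cmp' {α β : ℝ} (h0 : 0 ≤ α) (h : α ≤ β) (j K : ℕ) :
    α ^ K * T β j (K + 1) ≤ T α j (K + 1) * β ^ K := by
  simp only [T, Finset.mul_sum, Finset.sum_mul]
  apply Finset.sum_le_sum
  intro L hL
  obtain ⟨d, rfl⟩ : ∃ d, K = L + d := ⟨K - L, by have := Finset.mem_range.mp hL; omega⟩
  have h1 : α ^ d ≤ β ^ d := pow_le_pow_left₀ h0 h d
  have hβ : 0 ≤ β := h0.trans h
  have h2 : 0 ≤ (Nat.multichoose j L : ℝ) * α ^ L * β ^ L := by positivity
  have := mul_le_mul_of_nonneg_left h1 h2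
  calc _ = (Nat.multichoose j L : ℝ) * α ^ L * β ^ L * α ^ d := by ring
    _ ≤ _ := this
    _ = _ := by ring

noncomputable def J (α β : ℝ) (j l : ℕ) : A :=
  mk3 fun r p q => if r = 1 then G α j p * G β l q else 0

lemma J_left (α β : ℝ) (j l : ℕ) :
    J α β (j + 1) l - sc α * (PP * (PP * J α β (j + 1) l)) = J α β j l := by
  apply ext3
  intro r p q
  rw [c3_sub, c3_sc]
  rcases p with _ | _ | p
  · simp [c3_P0, J, c3_mk3, G0]
  · simp [c3_P0, c3_P, J, c3_mk3, G1]
  · rw [c3_P, c3_P]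
    simp only [J, c3_mk3, G_rec]
    split_ifs <;> ring

lemma J_right (α β : ℝ) (j l : ℕ) :
    J α β j (l + 1) - sc β * (QQ * (QQ * J α β j (l + 1))) = J α β j l := by
  apply ext3
  intro r p q
  rw [c3_sub, c3_sc]
  rcases q with _ | _ | q
  · simp [c3_Q0, J, c3_mk3, G0]
  · simp [c3_Q0, c3_Q, J, c3_mk3, G1]
  · rw [c3_Q, c3_Q]
    simp only [J, c3_mk3, G_rec]
    split_ifs <;> ring

noncomputable def UU (a b c : ℝ) (Y : Pairing) : A :=
  mk3 fun r p q => if r = 0 then 0 else W a b c r p q Y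

lemma W_r (a b c : ℝ) (p q : ℕ) (Y : Pairing) : W a b c 0 p q Y = 1 := by rw [W]
lemma W_p (a b c : ℝ) (r q : ℕ) (Y : Pairing) : W a b c (r + 1) 0 q Y = 0 := by rw [W]
lemma W_q (a b c : ℝ) (r p : ℕ) (Y : Pairing) : W a b c (r + 1) p 0 Y = 0 := by
  rcases p with _ | p <;> rw [W]
lemma W_FM (a b c : ℝ) (r p q : ℕ) : W a b c (r + 1) (p + 1) (q + 1) FM =
    a * W a b c r (p + 1) (q + 1) FS + (1 - a) * W a b c (r + 1) p (q + 1) MS := by rw [W]
lemma W_FS (a b c : ℝ) (r p q : ℕ) : W a b c (r + 1) (p + 1) (q + 1) FS =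
    b * W a b c r (p + 1) (q + 1) FM + (1 - b) * W a b c (r + 1) (p + 1) q MS := by rw [W]
lemma W_MS (a b c : ℝ) (r p q : ℕ) : W a b c (r + 1) (p + 1) (q + 1) MS =
    c * W a b c (r + 1) p (q + 1) FM + (1 - c) * W a b c (r + 1) (p + 1) q FS := by rw [W]

lemma eqU (a b c α β : ℝ) : UU a b c FM =
    sc a * (RR * UU a b c FS) + sc (1 - a) * (PP * UU a b c MS) + sc a * J α β 0 0 := by
  apply ext3
  intro r p q
  rw [c3_add, c3_add, c3_sc, c3_sc, c3_sc]
  rcases r with _ | r
  · rcases p with _ | p <;> simp [c3_R0, c3_P0, c3_P, UU, J, c3_mk3]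
  · rcases p with _ | p
    · rcases r with _ | r <;> simp [c3_R, c3_P0, UU, J, c3_mk3, W_p, G0]
    · rcases q with _ | q
      · rcases r with _ | r <;> simp [c3_R, c3_P, UU, J, c3_mk3, W_q, G0]
      · rw [c3_R, c3_P]
        rcases r with _ | r
        · simp only [UU, J, c3_mk3, G_base]
          have := W_FM a b c 0 p q
          rw [W_r] at this
          simp [this]; ring
        · simp only [UU, J, c3_mk3]
          have := W_FM a b c (r + 1) p q
          simp [this]

lemma eqV (a b c α β : ℝ) : UU a b c FS =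
    sc b * (RR * UU a b c FM) + sc (1 - b) * (QQ * UU a b c MS) + sc b * J α β 0 0 := by
  apply ext3
  intro r p q
  rw [c3_add, c3_add, c3_sc, c3_sc, c3_sc]
  rcases r with _ | r
  · rcases q with _ | q <;> simp [c3_R0, c3_Q0, c3_Q, UU, J, c3_mk3]
  · rcases q with _ | q
    · rcases r with _ | r <;> simp [c3_R, c3_Q0, UU, J, c3_mk3, W_q, G0]
    · rcases p with _ | p
      · rcases r with _ | r <;> simp [c3_R, c3_Q, UU, J, c3_mk3, W_p, G0]
      · rw [c3_R, c3_Q]
        rcases r with _ | r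
        · simp only [UU, J, c3_mk3, G_base]
          have := W_FS a b c 0 p q
          rw [W_r] at this
          simp [this]; ring
        · simp only [UU, J, c3_mk3]
          have := W_FS a b c (r + 1) p q
          simp [this]

lemma eqW (a b c : ℝ) : UU a b c MS =
    sc c * (PP * UU a b c FM) + sc (1 - c) * (QQ * UU a b c FS) := by
  apply ext3
  intro r p q
  rw [c3_add, c3_sc, c3_sc]
  rcases r with _ | r
  · rcases p with _ | p <;> rcases q with _ | q <;>
      simp [c3_P0, c3_P, c3_Q0, c3_Q, UU, c3_mk3]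
  · rcases p with _ | p <;> rcases q with _ | q <;>
      simp [c3_P0, c3_P, c3_Q0, c3_Q, UU, c3_mk3, W_p, W_q, W_MS]

def Nn (f : A) (n : ℕ) : Prop := ∀ r p, r + p < n → 0 ≤ c3 f r p p

lemma Nn_step {f : A} {n : ℕ} {x y : ℝ} (hx : 0 ≤ x) (hy : 0 ≤ y) (h : Nn f n) :
    Nn (sc x * (RR * f) + sc y * (PP * (QQ * f))) (n + 1) := by
  intro r p hrp
  rw [c3_add, c3_sc, c3_sc]
  have h1 : 0 ≤ c3 (RR * f) r p p := by
    rcases r with _ | r
    · rw [c3_R0]
    · rw [c3_R]; exact h _ _ (by omega)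
  have h2 : 0 ≤ c3 (PP * (QQ * f)) r p p := by
    rcases p with _ | p
    · rw [c3_P0]
    · rw [c3_P, c3_Q]; exact h _ _ (by omega)
  positivity

lemma src_nonneg {a b c : ℝ} (ha1 : a ≤ 1) (hb : 0 ≤ b) (hba : b ≤ a) (hc : 0 ≤ c)
    (hc2 : c ≤ 1 / 2) (j r p : ℕ) :
    0 ≤ c3 (sc (a - b) * J ((1 - a) * c) ((1 - b) * (1 - c)) j j
      - sc (a * ((1 - b) * (1 - c))) * (QQ * (QQ * J ((1 - a) * c) ((1 - b) * (1 - c)) j j))
      + sc (b * ((1 - a) * c)) * (PP * (PP * J ((1 - a) * c) ((1 - b) * (1 - c)) j j))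
      + sc (b * ((1 - a) * (1 - c)) - a * ((1 - b) * c)) *
        (PP * (QQ * J ((1 - a) * c) ((1 - b) * (1 - c)) j j))) r p p := by
  have hα : 0 ≤ (1 - a) * c := mul_nonneg (by linarith) hc
  have hαβ : (1 - a) * c ≤ (1 - b) * (1 - c) :=
    mul_le_mul (by linarith) (by linarith) hc (by linarith)
  have hβ1 : (1 - b) * (1 - c) ≤ 1 := by nlinarith
  have hid : b * ((1 - a) * (1 - c)) - a * ((1 - b) * c) =
      a * ((1 - b) * (1 - c)) - b * ((1 - a) * c) - (a - b) := by ring
  rw [hid]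
  generalize (1 - a) * c = α at *
  generalize (1 - b) * (1 - c) = β at *
  have hβ : 0 ≤ β := hα.trans hαβ
  have hab : 0 ≤ a - b := by linarith
  rw [c3_add, c3_add, c3_sub, c3_sc, c3_sc, c3_sc, c3_sc]
  rcases p with _ | _ | p
  · simp [c3_P0, c3_Q0, J, c3_mk3, G0]
  · simp only [zero_add]
    have e1 := c3_Q (QQ * J α β j j) r 1 0
    have e2 := c3_P (PP * J α β j j) r 0 1
    have e3 := c3_P (QQ * J α β j j) r 0 1
    have e4 := c3_Q (J α β j j) r 0 0
    simp only [zero_add] at e1 e2 e3 e4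
    rw [e1, e2, e3, e4, c3_Q0, c3_P0]
    simp only [J, c3_mk3, G0, G1]
    split_ifs <;> simp [hba]
  · rw [c3_Q, c3_Q, c3_P, c3_P, c3_P, c3_Q]
    simp only [J, c3_mk3]
    split_ifs
    swap
    · simp
    obtain ⟨K, hK | hK⟩ := Nat.even_or_odd' p
    · have h1 : (p + 1 + 1 + 1) / 2 = K + 1 := by omega
      have h2 : (p + 1 + 1) / 2 = K + 1 := by omega
      have h3 : (p + 1) / 2 = K := by omega
      simp only [G, h1, h2, h3]
      have hc := T_cmp' hα hαβ j K
      have hX := T_succ α j K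
      have hY := T_succ β j K
      have hY0 := T_nonneg hβ j (K + 1)
      have hw : (0 : ℝ) ≤ Nat.multichoose j K := by positivity
      have hp : 0 ≤ α ^ K := by positivity
      generalize (Nat.multichoose j K : ℝ) = w at *
      have hx' : T α j K = T α j (K + 1) - w * α ^ K := by linarith
      have hy' : T β j K = T β j (K + 1) - w * β ^ K := by linarith
      rw [hx', hy']
      generalize T α j (K + 1) = x at *
      generalize T β j (K + 1) = y at *
      have hco : b * α ≤ a * β := mul_le_mul hba hαβ hα (hb.trans hba)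
      have k1 : 0 ≤ a * β * (w * (x * β ^ K - α ^ K * y)) :=
        mul_nonneg (mul_nonneg (hb.trans hba) hβ) (mul_nonneg hw (by linarith))
      have k2 : 0 ≤ (a * β - b * α) * (w * (α ^ K * y)) :=
        mul_nonneg (by linarith) (mul_nonneg hw (mul_nonneg hp hY0))
      nlinarith [k1, k2]
    · have h1 : (p + 1 + 1 + 1) / 2 = K + 1 + 1 := by omega
      have h2 : (p + 1 + 1) / 2 = K + 1 := by omega
      have h3 : (p + 1) / 2 = K + 1 := by omega
      simp only [G, h1, h2, h3]
      have hc := T_cmp hα hαβ j (K + 1)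
      rw [T_succ α j (K + 1), T_succ β j (K + 1)]
      have hX0 := T_nonneg hα j (K + 1)
      have hY0 := T_nonneg hβ j (K + 1)
      have hw : (0 : ℝ) ≤ Nat.multichoose j (K + 1) := by positivity
      have hp : 0 ≤ α ^ (K + 1) := by positivity
      have hq : 0 ≤ β ^ (K + 1) := by positivity
      generalize (Nat.multichoose j (K + 1) : ℝ) = w at *
      generalize T α j (K + 1) = x at *
      generalize T β j (K + 1) = y at *
      generalize α ^ (K + 1) = s at *
      generalize β ^ (K + 1) = t at *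
      have k1 : 0 ≤ (a - b) * (x * (w * t)) := by positivity
      have k2 : 0 ≤ (a - b) * (1 - β) * (w * s * y) :=
        mul_nonneg (mul_nonneg hab (by linarith)) (by positivity)
      have k3 : 0 ≤ b * w * (x * t * α - s * y * β) :=
        mul_nonneg (by positivity) (by linarith)
      have k4 : 0 ≤ (a - b) * (w * s * (w * t)) := by positivity
      nlinarith [k1, k2, k3, k4]

lemma unit_u (α : ℝ) : IsUnit (1 - sc α * PP * PP) := by
  simp [sc, PP, isUnit_iff_constantCoeff]
lemma unit_v (β : ℝ) : IsUnit (1 - sc β * QQ * QQ) := by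
  simp [sc, QQ, isUnit_iff_constantCoeff]

lemma FM_ge_FS {a b c : ℝ} (ha1 : a ≤ 1) (hb : 0 ≤ b) (hba : b ≤ a) (hc : 0 ≤ c)
    (hc2 : c ≤ 1 / 2) (r p : ℕ) : W a b c r p p FS ≤ W a b c r p p FM := by
  obtain ⟨x, hx⟩ := (unit_u ((1 - a) * c)).exists_left_inv
  obtain ⟨y, hy⟩ := (unit_v ((1 - b) * (1 - c))).exists_left_inv
  have hJ : ∀ j, J ((1 - a) * c) ((1 - b) * (1 - c)) j j =
      (x * y) ^ j * J ((1 - a) * c) ((1 - b) * (1 - c)) 0 0 := by
    intro j
    induction j with
    | zero => simp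
    | succ j ih =>
      have h1 := J_left ((1 - a) * c) ((1 - b) * (1 - c)) j (j + 1)
      have h2 := J_right ((1 - a) * c) ((1 - b) * (1 - c)) j j
      rw [pow_succ]
      linear_combination (x * y) * ih + (x * y) * h2 + x * h1
        - J ((1 - a) * c) ((1 - b) * (1 - c)) (j + 1) (j + 1) * hx
        - x * J ((1 - a) * c) ((1 - b) * (1 - c)) j (j + 1) * hy
  have hU := eqU a b c ((1 - a) * c) ((1 - b) * (1 - c))
  have hV := eqV a b c ((1 - a) * c) ((1 - b) * (1 - c))
  have hW := eqW a b c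
  have key : ∀ n j, Nn ((x * y) ^ j * (UU a b c FM - UU a b c FS)) n := by
    intro n
    induction n with
    | zero => intro j r p h; omega
    | succ n ih =>
      intro j r p hrp
      have h1 := Nn_step (x := b) (y := (1 - b) * c) hb (mul_nonneg (by linarith) hc) (ih (j + 1))
      have h2 := Nn_step (x := a) (y := (1 - a) * (1 - c)) (hb.trans hba)
        (mul_nonneg (by linarith) (by linarith)) h1 r p (by omega)
      have h3 := src_nonneg ha1 hb hba hc hc2 (j + 1) r p
      have h4 := add_nonneg h2 h3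
      rw [← c3_add] at h4
      refine h4.trans_eq (congrArg (fun f => c3 f r p p) (Eq.symm ?_))
      rw [hJ (j + 1), pow_succ]
      simp only [map_mul, map_sub, map_one] at hx hy hU hV hW ⊢
      generalize (x * y) ^ j = k
      generalize J ((1 - a) * c) ((1 - b) * (1 - c)) 0 0 = I at *
      generalize UU a b c FM = U at *
      generalize UU a b c FS = V at *
      generalize UU a b c MS = Z at *
      generalize sc a = a' at *
      generalize sc b = b' at *
      generalize sc c = c' at *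
      subst hW
      have e1 : (1 - (1 - a') * c' * PP * PP) * U =
          (a' * RR + (1 - a') * (1 - c') * PP * QQ) * V + a' * I := by linear_combination hU
      have e2 : (1 - (1 - b') * (1 - c') * QQ * QQ) * V =
          (b' * RR + (1 - b') * c' * PP * QQ) * U + b' * I := by linear_combination hV
      linear_combination (-(k * (U - V))) * hx
        - (k * (U - V) * x * (1 - (1 - a') * c' * PP * PP)) * hy
        + (k * x * y * ((1 - (1 - b') * (1 - c') * QQ * QQ) - (b' * RR + (1 - b') * c' * PP * QQ))) * e1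
        + (k * x * y * ((a' * RR + (1 - a') * (1 - c') * PP * QQ) - (1 - (1 - a') * c' * PP * PP))) * e2
  have := key (r + p + 1) 0 r p (by omega)
  rw [pow_zero, one_mul, c3_sub] at this
  simp only [UU, c3_mk3] at this
  rcases r with _ | r
  · rw [W_r, W_r]
  · simpa using this

lemma W_nonneg {a b c : ℝ} (ha0 : 0 ≤ a) (ha1 : a ≤ 1) (hb0 : 0 ≤ b) (hb1 : b ≤ 1) (hc0 : 0 ≤ c)
    (hc1 : c ≤ 1) : ∀ n r p q, r + p + q = n → ∀ Y, 0 ≤ W a b c r p q Y := by
  intro n
  induction n with
  | zero =>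
    intro r p q h Y
    obtain rfl : r = 0 := by omega
    rw [W_r]; norm_num
  | succ n ih =>
    intro r p q h Y
    rcases r with _ | r
    · rw [W_r]; norm_num
    rcases p with _ | p
    · rw [W_p]
    rcases q with _ | q
    · rw [W_q]
    cases Y
    · rw [W_FM]
      exact add_nonneg (mul_nonneg ha0 (ih _ _ _ (by omega) _))
        (mul_nonneg (by linarith) (ih _ _ _ (by omega) _))
    · rw [W_FS]
      exact add_nonneg (mul_nonneg hb0 (ih _ _ _ (by omega) _))
        (mul_nonneg (by linarith) (ih _ _ _ (by omega) _))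
    · rw [W_MS]
      exact add_nonneg (mul_nonneg hc0 (ih _ _ _ (by omega) _))
        (mul_nonneg (by linarith) (ih _ _ _ (by omega) _))

lemma W_mono {a b c : ℝ} (ha0 : 0 ≤ a) (ha1 : a ≤ 1) (hb0 : 0 ≤ b) (hb1 : b ≤ 1) (hc0 : 0 ≤ c)
    (hc1 : c ≤ 1) : ∀ n r p q p' q', r + p + q = n → p ≤ p' → q ≤ q' → ∀ Y,
      W a b c r p q Y ≤ W a b c r p' q' Y := by
  intro n
  induction n with
  | zero =>
    intro r p q p' q' h _ _ Y
    obtain rfl : r = 0 := by omega
    rw [W_r, W_r]
  | succ n ih =>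
    intro r p q p' q' h hp hq Y
    rcases r with _ | r
    · rw [W_r, W_r]
    rcases p with _ | p
    · rw [W_p]; exact W_nonneg ha0 ha1 hb0 hb1 hc0 hc1 _ _ _ _ rfl _
    rcases q with _ | q
    · rw [W_q]; exact W_nonneg ha0 ha1 hb0 hb1 hc0 hc1 _ _ _ _ rfl _
    obtain ⟨p', rfl⟩ : ∃ s, p' = s + 1 := ⟨p' - 1, by omega⟩
    obtain ⟨q', rfl⟩ : ∃ s, q' = s + 1 := ⟨q' - 1, by omega⟩
    cases Y
    · rw [W_FM, W_FM]
      exact add_le_add (mul_le_mul_of_nonneg_left (ih _ _ _ _ _ (by omega) (by omega) (by omega) _) ha0)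
        (mul_le_mul_of_nonneg_left (ih _ _ _ _ _ (by omega) (by omega) (by omega) _) (by linarith))
    · rw [W_FS, W_FS]
      exact add_le_add (mul_le_mul_of_nonneg_left (ih _ _ _ _ _ (by omega) (by omega) (by omega) _) hb0)
        (mul_le_mul_of_nonneg_left (ih _ _ _ _ _ (by omega) (by omega) (by omega) _) (by linarith))
    · rw [W_MS, W_MS]
      exact add_le_add (mul_le_mul_of_nonneg_left (ih _ _ _ _ _ (by omega) (by omega) (by omega) _) hc0)
        (mul_le_mul_of_nonneg_left (ih _ _ _ _ _ (by omega) (by omega) (by omega) _) (by linarith))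

lemma sum_succ (n : ℕ) (g : List Bool → ℝ) : ∑ ω : Fin (n + 1) → Bool, g (List.ofFn ω) =
    ∑ ω : Fin n → Bool, g (true :: List.ofFn ω) + ∑ ω : Fin n → Bool, g (false :: List.ofFn ω) := by
  rw [← (Fin.consEquiv fun _ => Bool).sum_comp, Fintype.sum_prod_type]
  simp [Fin.consEquiv, List.ofFn_succ]

lemma sum_weight (a b c : ℝ) : ∀ (n : ℕ) (σ : St),
    ∑ ω : Fin n → Bool, weight a b c σ (List.ofFn ω) = 1 := by
  intro n
  induction n with
  | zero => intro σ; simp [weight]
  | succ n ih =>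
    intro σ
    rw [sum_succ n (weight a b c σ)]
    simp only [weight, ← Finset.mul_sum, ih]
    cases σ.next <;> simp [gameProb]

lemma sum_eq_W (a b c : ℝ) (N : ℕ) : ∀ (n f m s r p q : ℕ) (Y : Pairing), f + r = N → m + p = N →
    s + q = N → r + p + q ≤ n →
    (∑ ω : Fin n → Bool, if fatherWins N ⟨f, m, s, Y⟩ (List.ofFn ω)
      then weight a b c ⟨f, m, s, Y⟩ (List.ofFn ω) else 0) = W a b c r p q Y := by
  intro n
  induction n with
  | zero =>
    intro f m s r p q Y h1 h2 h3 h4
    obtain rfl : r = 0 := by omega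
    have : f = N := by omega
    simp [fatherWins, weight, W_r, this]
  | succ n ih =>
    intro f m s r p q Y h1 h2 h3 h4
    have hs := sum_succ n (fun l => if fatherWins N ⟨f, m, s, Y⟩ l
      then weight a b c ⟨f, m, s, Y⟩ l else 0)
    rw [hs]
    clear hs
    rcases r with _ | r
    · have hf : f = N := by omega
      have := sum_weight a b c (n + 1) ⟨f, m, s, Y⟩
      rw [sum_succ n (weight a b c ⟨f, m, s, Y⟩)] at this
      rw [W_r, ← this]
      simp [fatherWins, hf]
    have hf : f ≠ N := by omega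
    rcases p with _ | p
    · have hm : m = N := by omega
      simp [fatherWins, hf, hm, W_p]
    rcases q with _ | q
    · have hm : s = N := by omega
      simp [fatherWins, hf, hm, W_q]
    have hm : m ≠ N := by omega
    have hs : s ≠ N := by omega
    cases Y
    · rw [W_FM, ← ih (f + 1) m s r (p + 1) (q + 1) FS (by omega) h2 h3 (by omega),
        ← ih f (m + 1) s (r + 1) p (q + 1) MS h1 (by omega) h3 (by omega)]
      simp [fatherWins, hf, hm, hs, weight, step, gameProb, Finset.mul_sum]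
    · rw [W_FS, ← ih (f + 1) m s r (p + 1) (q + 1) FM (by omega) h2 h3 (by omega),
        ← ih f m (s + 1) (r + 1) (p + 1) q MS h1 h2 (by omega) (by omega)]
      simp [fatherWins, hf, hm, hs, weight, step, gameProb, Finset.mul_sum]
    · rw [W_MS, ← ih f (m + 1) s (r + 1) p (q + 1) FM h1 (by omega) h3 (by omega),
        ← ih f m (s + 1) (r + 1) (p + 1) q FS h1 h2 (by omega) (by omega)]
      simp [fatherWins, hf, hm, hs, weight, step, gameProb, Finset.mul_sum]

lemma P_eq (N : ℕ) (Y : Pairing) (a b c : ℝ) : P N Y a b c = W a b c N N N Y :=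
  sum_eq_W a b c N (3 * N) 0 0 0 N N N Y (by omega) (by omega) (by omega) (by omega)

theorem result (N : ℕ) (hN : 1 ≤ N) (a b c : ℝ) (_ha0 : 0 < a) (hb0 : 0 < b) (hc0 : 0 < c)
    (ha : a < 1 / 2) (_hb : b < 1 / 2) (hc : c < 1 / 2) (hba : b ≤ a) :
    P N FS a b c ≤ P N FM a b c ∧ P N MS a b c ≤ P N FM a b c := by
  have h1 := FM_ge_FS (a := a) (b := b) (c := c) (by linarith) hb0.le hba hc0.le hc.le N N
  rw [P_eq, P_eq, P_eq]
  refine ⟨h1, ?_⟩
  obtain ⟨n, rfl⟩ : ∃ n, N = n + 1 := ⟨N - 1, by omega⟩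
  have m := W_mono (a := a) (b := b) (c := c) (by linarith) (by linarith) hb0.le (by linarith)
    hc0.le (by linarith)
  have h2 := m _ (n + 1) n (n + 1) (n + 1) (n + 1) rfl (by omega) le_rfl FM
  have h3 := m _ (n + 1) (n + 1) n (n + 1) (n + 1) rfl le_rfl (by omega) FS
  rw [W_MS]
  have k1 := mul_le_mul_of_nonneg_left h2 hc0.le
  have k2 := mul_le_mul_of_nonneg_left (h3.trans h1) (show 0 ≤ 1 - c by linarith)
  linarith

end Pool.Agent.Results.MP_582e6d_pr.MotherFirst
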